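import Pool.Agent.H4.FV.OddT

set_option autoImplicit false
set_option linter.unusedVariables false
set_option linter.unusedSectionVars false

/-! Task ODD-AX (helper650): the axioms are axioms. -/

namespace Pool.Agent.H650.FV

open FirstOrder FirstOrder.Language
open Pool.Agent.W889.FO
open Pool.Agent.W889.FO.StA (FD.all1 FD.ex1)
open Pool.Agent.H4.VG (Cen LR LM ml FT eqT fd_cen axf fd_finex FT.var FT.mul FT.sub)
open Pool.Agent.H4.FV.Odd
open Pool.Agent.N649.SG.Light (pw)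

section

variable {p : ℕ} [hpf : Fact p.Prime] {α : Type}
  {q r s t : LR.Structure ℕ → (α → ℕ) → ℕ}

theorem fd_ind (h : S_fd) {ι : Type} [Fintype ι] {u : ι → LR.Structure ℕ → (α → ℕ) → ℕ}
    (hu : ∀ i, FT (u i)) (hq : FT q) :
    FD (St0.W (L := LM)) (fun S v => Ind p (ml S) fun i => u i S v) :=
  (h p ι α u q (fun _ => 0) (fun _ _ => 0) hu hq).2.2.1

theorem fd_ins (h : S_fd) {ι : Type} [Fintype ι] {u : ι → LR.Structure ℕ → (α → ℕ) → ℕ}
    (hu : ∀ i, FT (u i)) (hq : FT q) :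
    FD (St0.W (L := LM)) (fun S v => InS p (ml S) (fun i => u i S v) (q S v)) :=
  (h p ι α u q (fun _ => 0) (fun _ _ => 0) hu hq).2.2.2

theorem ft_bl (h : S_fd) {ι : Type} [Fintype ι] {u : ι → LR.Structure ℕ → (α → ℕ) → ℕ}
    (C : ι → ι → ZMod p) (hu : ∀ i, FT (u i)) (hq : FT q) :
    FT (fun S v => bl p (ml S) (q S v) (fun i => u i S v) C) :=
  (h p ι α u q (fun _ => 0) C hu hq).2.1

theorem ft_pw (hq : FT q) (n : ℕ) : FT (fun S v => pw (ml S) (q S v) n) := by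
  induction n with
  | zero => exact hq
  | succ n ih => exact ih.mul hq

theorem ft_cmp (hq : FT q) (hr : FT r) : FT (fun S v => cm p (ml S) (q S v) (r S v)) :=
  ((hq.mul hr).mul (ft_pw hq (p - 2))).mul (ft_pw hr (p - 2))

theorem fd_ins2 (h : S_fd) (hq : FT q) (hr : FT r) (hs : FT s) :
    FD (St0.W (L := LM)) (fun S v => InS p (ml S) ![q S v, r S v] (s S v)) := by
  refine (fd_ins h (p := p) (u := ![q, r]) (q := s) (fun i => ?_) hs).congr fun S _ v => ?_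
  · fin_cases i
    · exact hq
    · exact hr
  · have e : (fun i => (![q, r] : Fin 2 → _) i S v) = ![q S v, r S v] := by
      funext i
      fin_cases i <;> rfl
    rw [e]

theorem fd_ins3 (h : S_fd) (hq : FT q) (hr : FT r) (hs : FT s) (ht : FT t) :
    FD (St0.W (L := LM)) (fun S v => InS p (ml S) ![q S v, r S v, s S v] (t S v)) := by
  refine (fd_ins h (p := p) (u := ![q, r, s]) (q := t) (fun i => ?_) ht).congr fun S _ v => ?_
  · fin_cases i
    · exact hq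
    · exact hr
    · exact hs
  · have e : (fun i => (![q, r, s] : Fin 3 → _) i S v) = ![q S v, r S v, s S v] := by
      funext i
      fin_cases i <;> rfl
    rw [e]

theorem fd_ind3 (h : S_fd) (hq : FT q) (hr : FT r) (hs : FT s) :
    FD (St0.W (L := LM)) (fun S v => Ind p (ml S) ![q S v, r S v, s S v]) := by
  refine (fd_ind h (p := p) (u := ![q, r, s]) (q := q) (fun i => ?_) hq).congr fun S _ v => ?_
  · fin_cases i
    · exact hq
    · exact hr
    · exact hs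
  · have e : (fun i => (![q, r, s] : Fin 3 → _) i S v) = ![q S v, r S v, s S v] := by
      funext i
      fin_cases i <;> rfl
    rw [e]

theorem fd_ind4 (h : S_fd) (hq : FT q) (hr : FT r) (hs : FT s) (ht : FT t) :
    FD (St0.W (L := LM)) (fun S v => Ind p (ml S) ![q S v, r S v, s S v, t S v]) := by
  refine (fd_ind h (p := p) (u := ![q, r, s, t]) (q := q) (fun i => ?_) hq).congr fun S _ v => ?_
  · fin_cases i
    · exact hq
    · exact hr
    · exact hs
    · exact ht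
  · have e : (fun i => (![q, r, s, t] : Fin 4 → _) i S v) = ![q S v, r S v, s S v, t S v] := by
      funext i
      fin_cases i <;> rfl
    rw [e]

theorem fd_tri (h : S_fd) (hq : FT q) (hr : FT r) (hs : FT s) :
    FD (St0.W (L := LM)) (fun S v => Tri p (ml S) (q S v) (r S v) (s S v)) :=
  (eqT (hq.mul hr) (hr.mul hq)).and ((eqT (hq.mul hs) (hs.mul hq)).and (fd_ind3 h hq hr hs))

theorem fd_vt (h : S_fd) (hq : FT q) : FD (St0.W (L := LM)) (fun S v => Vt p (ml S) (q S v)) :=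
  FD.ex1 (P := fun S v y => ∃ z, Tri p (ml S) (q S v) y z) <|
  FD.ex1 (P := fun S w z => Tri p (ml S) (q S (fun i => w (Sum.inl i))) (w (Sum.inr ())) z) <|
  fd_tri h (hq.sub (fun i => Sum.inl (Sum.inl i))) (FT.var (Sum.inl (Sum.inr ())))
    (FT.var (Sum.inr ()))

theorem fd_ev (h : S_fd) (hq : FT q) (hr : FT r) :
    FD (St0.W (L := LM)) (fun S v => Ev p (ml S) (q S v) (r S v)) :=
  fd_ins h (u := fun _ : Fin 1 => q) (fun _ => hq) hr

theorem fd_qd (h : S_fd) (hq : FT q) (hr : FT r) (hs : FT s) (ht : FT t) :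
    FD (St0.W (L := LM)) (fun S v => Qd p (ml S) (q S v) (r S v) (s S v) (t S v)) :=
  (fd_vt h hq).and <| (fd_vt h hr).and <| (fd_ind4 h hq hr hs ht).and <|
  FD.all1 (P := fun S v e => ml S e e = e →
    ml S (cm p (ml S) (q S v) (r S v)) (cm p (ml S) (s S v) (t S v)) = e) <|
  (eqT ((FT.var _).mul (FT.var _)) (FT.var _)).imp <|
  eqT ((ft_cmp (hq.sub Sum.inl) (hr.sub Sum.inl)).mul (ft_cmp (hs.sub Sum.inl) (ht.sub Sum.inl)))
    (FT.var _)

end

/-- quantification over all assignments -/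
theorem axall {β : Type} [Finite β] {P : LR.Structure ℕ → (β → ℕ) → Prop} (h : FD St0.W P) :
    Ax (fun S => St0.W S ∧ ∀ f : β → ℕ, P S f) :=
  axf (FD.all (P := fun S _ f => P S f) (h.sub Sum.inr))

/-- the configuration in an assignment -/
theorem fd_cfg (h : S_fd) {p : ℕ} [Fact p.Prime] {n m : ℕ} (s t : Fin m → Fin n) :
    FD (St0.W (L := LM)) (fun S (f : Ix n m ⊕ Unit → ℕ) => Cfg p (ml S) s t
      (fun i => f (Sum.inl (Sum.inl (i, 0)))) (fun i => f (Sum.inl (Sum.inl (i, 1))))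
      (fun i => f (Sum.inl (Sum.inl (i, 2)))) (fun k => f (Sum.inl (Sum.inr (k, 0))))
      (fun k => f (Sum.inl (Sum.inr (k, 1))))) := by
  have h1 : FD (St0.W (L := LM)) (fun S (f : Ix n m ⊕ Unit → ℕ) =>
      (∀ i, Tri p (ml S) (f (Sum.inl (Sum.inl (i, 0)))) (f (Sum.inl (Sum.inl (i, 1))))
        (f (Sum.inl (Sum.inl (i, 2))))) ∧
      (∀ i j, i ≠ j → ¬ Ev p (ml S) (f (Sum.inl (Sum.inl (i, 0))))
        (f (Sum.inl (Sum.inl (j, 0))))) ∧
      ∀ k, Qd p (ml S) (f (Sum.inl (Sum.inl (s k, 0)))) (f (Sum.inl (Sum.inl (t k, 0))))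
        (f (Sum.inl (Sum.inr (k, 0)))) (f (Sum.inl (Sum.inr (k, 1))))) :=
    (FD.fin fun i => fd_tri h (FT.var _) (FT.var _) (FT.var _)).and <|
    (FD.fin fun i => FD.fin fun j => (FD.const (i ≠ j)).imp
      (fd_ev h (FT.var _) (FT.var _)).not).and <|
    FD.fin fun k => fd_qd h (FT.var _) (FT.var _) (FT.var _) (FT.var _)
  exact h1.congr fun S _ f => ⟨fun k => ⟨k.1, k.2.1, k.2.2⟩, fun k => ⟨k.tri, k.ne, k.qd⟩⟩

theorem cf_eta {α : Type} {n m : ℕ} (f : Ix n m → α) :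
    cf (fun i => f (Sum.inl (i, 0))) (fun i => f (Sum.inl (i, 1))) (fun i => f (Sum.inl (i, 2)))
      (fun k => f (Sum.inr (k, 0))) (fun k => f (Sum.inr (k, 1))) = f := by
  funext x
  rcases x with ⟨i, j⟩ | ⟨k, j⟩
  · fin_cases j <;> rfl
  · fin_cases j <;> rfl

theorem cf'_eta {α : Type} {n m : ℕ} (f : (Fin n × Fin 3) ⊕ (Fin m × Fin 4) → α) :
    cf' (fun i => f (Sum.inl (i, 0))) (fun i => f (Sum.inl (i, 1))) (fun i => f (Sum.inl (i, 2)))
      (fun k => f (Sum.inr (k, 0))) (fun k => f (Sum.inr (k, 1))) (fun k => f (Sum.inr (k, 2)))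
      (fun k => f (Sum.inr (k, 3))) = f := by
  funext x
  rcases x with ⟨i, j⟩ | ⟨k, j⟩
  · fin_cases j <;> rfl
  · fin_cases j <;> rfl

/-- **ODD-AX.** -/
theorem ax (h : S_fd) : S_ax := by
  intro p hp
  -- associativity
  have h1 := axall (P := fun S (f : Fin 3 → ℕ) =>
      ml S (ml S (f 0) (f 1)) (f 2) = ml S (f 0) (ml S (f 1) (f 2))) <|
    eqT (((FT.var _).mul (FT.var _)).mul (FT.var _)) ((FT.var _).mul ((FT.var _).mul (FT.var _)))
  -- unit
  have h2 := axf (P := fun S => ∃ e, (∀ x, ml S e x = x) ∧ ∀ x, ∃ y, ml S y x = e) <|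
    FD.ex1 (P := fun S _ e => (∀ x, ml S e x = x) ∧ ∀ x, ∃ y, ml S y x = e) <|
    FD.and (FD.all1 (P := fun S w x => ml S (w (Sum.inr ())) x = x)
      (eqT ((FT.var _).mul (FT.var _)) (FT.var _))) <|
    FD.all1 (P := fun S w x => ∃ y, ml S y x = w (Sum.inr ())) <|
    FD.ex1 (P := fun S w y => ml S y (w (Sum.inr ())) = w (Sum.inl (Sum.inr ()))) <|
    eqT ((FT.var _).mul (FT.var _)) (FT.var _)
  -- exponent
  have h3 := axall (P := fun S (f : Fin 2 → ℕ) =>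
      ml S (f 0) (f 0) = f 0 → pw (ml S) (f 1) (p - 1) = f 0) <|
    (eqT ((FT.var _).mul (FT.var _)) (FT.var _)).imp (eqT (ft_pw (FT.var _) _) (FT.var _))
  -- class
  have h4 := axall (P := fun S (f : Fin 2 → ℕ) => Cen (ml S) (cm p (ml S) (f 0) (f 1))) <|
    fd_cen (ft_cmp (FT.var _) (FT.var _))
  -- centralisers
  have h5 := axall (P := fun S (f : Fin 4 → ℕ) => Tri p (ml S) (f 0) (f 1) (f 2) →
      ml S (f 0) (f 3) = ml S (f 3) (f 0) → InS p (ml S) ![f 0, f 1, f 2] (f 3)) <|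
    (fd_tri h (FT.var _) (FT.var _) (FT.var _)).imp <|
    (eqT ((FT.var _).mul (FT.var _)) ((FT.var _).mul (FT.var _))).imp <|
    fd_ins3 h (FT.var _) (FT.var _) (FT.var _) (FT.var _)
  -- witnesses
  have h6 := axall (P := fun S (f : Fin 6 → ℕ) => Qd p (ml S) (f 0) (f 1) (f 2) (f 3) →
      Qd p (ml S) (f 0) (f 1) (f 4) (f 5) →
      InS p (ml S) ![f 2, f 3] (f 4) ∧ InS p (ml S) ![f 2, f 3] (f 5)) <|
    (fd_qd h (FT.var _) (FT.var _) (FT.var _) (FT.var _)).imp <|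
    (fd_qd h (FT.var _) (FT.var _) (FT.var _) (FT.var _)).imp <|
    (fd_ins2 h (FT.var _) (FT.var _) (FT.var _)).and (fd_ins2 h (FT.var _) (FT.var _) (FT.var _))
  -- independence
  have h7 := Ax.all fun n : ℕ => Ax.all fun m : ℕ => Ax.all fun s : Fin m → Fin n =>
    Ax.all fun t : Fin m → Fin n => axall (P := fun S (f : Ix n m ⊕ Unit → ℕ) =>
      Shape n m s t → Cfg p (ml S) s t
      (fun i => f (Sum.inl (Sum.inl (i, 0)))) (fun i => f (Sum.inl (Sum.inl (i, 1))))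
      (fun i => f (Sum.inl (Sum.inl (i, 2)))) (fun k => f (Sum.inl (Sum.inr (k, 0))))
      (fun k => f (Sum.inl (Sum.inr (k, 1)))) → Ind p (ml S) (fun i : Ix n m => f (Sum.inl i))) <|
    (FD.const _).imp <| (fd_cfg h s t).imp <|
    fd_ind h (u := fun i _ f => f (Sum.inl i)) (fun i => FT.var _) (FT.var (Sum.inr ()))
  -- no other relations
  have h8 := Ax.all fun n : ℕ => Ax.all fun m : ℕ => Ax.all fun s : Fin m → Fin n =>
    Ax.all fun t : Fin m → Fin n => Ax.all fun C : Ix n m → Ix n m → ZMod p =>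
    axall (P := fun S (f : Ix n m ⊕ Unit → ℕ) =>
      (Shape n m s t ∧ Altm C ∧ Red0 C ∧ ∃ q q', C q q' ≠ 0) →
      ml S (f (Sum.inr ())) (f (Sum.inr ())) = f (Sum.inr ()) → Cfg p (ml S) s t
      (fun i => f (Sum.inl (Sum.inl (i, 0)))) (fun i => f (Sum.inl (Sum.inl (i, 1))))
      (fun i => f (Sum.inl (Sum.inl (i, 2)))) (fun k => f (Sum.inl (Sum.inr (k, 0))))
      (fun k => f (Sum.inl (Sum.inr (k, 1)))) →
      bl p (ml S) (f (Sum.inr ())) (fun i : Ix n m => f (Sum.inl i)) C ≠ f (Sum.inr ())) <|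
    (FD.const _).imp <| (eqT ((FT.var _).mul (FT.var _)) (FT.var _)).imp <|
    (fd_cfg h s t).imp <|
    (eqT (ft_bl h (u := fun i _ f => f (Sum.inl i)) C (fun i => FT.var _) (FT.var (Sum.inr ())))
      (FT.var _)).not
  -- finite support
  have h9 := Ax.all fun r : ℕ => Ax.all fun C : Fin r → Fin r → ZMod p =>
    axall (P := fun S (f : Fin r ⊕ Unit → ℕ) =>
      (Altm C ∧ (Matrix.of C).det ≠ 0) →
      ml S (f (Sum.inr ())) (f (Sum.inr ())) = f (Sum.inr ()) →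
      Ind p (ml S) (fun i : Fin r => f (Sum.inl i)) →
      bl p (ml S) (f (Sum.inr ())) (fun i : Fin r => f (Sum.inl i)) C = f (Sum.inr ()) →
      ∃ (n m : Fin (r + 1)) (g : (Fin n × Fin 3) ⊕ (Fin m × Fin 4) → ℕ),
        (∀ i, Tri p (ml S) (g (Sum.inl (i, 0))) (g (Sum.inl (i, 1))) (g (Sum.inl (i, 2)))) ∧
        (∀ k, Qd p (ml S) (g (Sum.inr (k, 0))) (g (Sum.inr (k, 1))) (g (Sum.inr (k, 2)))
          (g (Sum.inr (k, 3)))) ∧
        ∀ i : Fin r, InS p (ml S) (fun j => g j) (f (Sum.inl i))) <|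
    (FD.const _).imp <| (eqT ((FT.var _).mul (FT.var _)) (FT.var _)).imp <|
    (fd_ind h (u := fun i _ f => f (Sum.inl i)) (fun i => FT.var _) (FT.var (Sum.inr ()))).imp <|
    (eqT (ft_bl h (u := fun i _ f => f (Sum.inl i)) C (fun i => FT.var _) (FT.var (Sum.inr ())))
      (FT.var _)).imp <|
    fd_finex fun n : Fin (r + 1) => fd_finex fun m : Fin (r + 1) =>
    FD.ex (P := fun S f (g : (Fin n × Fin 3) ⊕ (Fin m × Fin 4) → ℕ) =>
        (∀ i, Tri p (ml S) (g (Sum.inl (i, 0))) (g (Sum.inl (i, 1))) (g (Sum.inl (i, 2)))) ∧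
        (∀ k, Qd p (ml S) (g (Sum.inr (k, 0))) (g (Sum.inr (k, 1))) (g (Sum.inr (k, 2)))
          (g (Sum.inr (k, 3)))) ∧
        ∀ i : Fin r, InS p (ml S) (fun j => g j) (f (Sum.inl i))) <|
    (FD.fin fun i => fd_tri h (FT.var _) (FT.var _) (FT.var _)).and <|
    (FD.fin fun k => fd_qd h (FT.var _) (FT.var _) (FT.var _) (FT.var _)).and <|
    FD.fin fun i => fd_ins h (u := fun j _ f => f (Sum.inr j)) (fun j => FT.var _) (FT.var _)
  -- infinitely many vertices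
  have h10 := Ax.all fun n : ℕ => axf (P := fun S => ∃ v : Fin n → ℕ,
      (∀ i, Vt p (ml S) (v i)) ∧ ∀ i j, i ≠ j → ¬ Ev p (ml S) (v i) (v j)) <|
    FD.ex (P := fun S _ v => (∀ i, Vt p (ml S) (v i)) ∧
      ∀ i j, i ≠ j → ¬ Ev p (ml S) (v i) (v j)) <|
    (FD.fin fun i => fd_vt h (FT.var _)).and <|
    FD.fin fun i => FD.fin fun j => (FD.const (i ≠ j)).imp (fd_ev h (FT.var _) (FT.var _)).not
  refine (h1.and (h2.and (h3.and (h4.and (h5.and (h6.and (h7.and (h8.and (h9.and h10))))))))).congr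
    fun S => ?_
  constructor
  · rintro ⟨k1, k2, k3, k4, k5, k6, k7, k8, k9, k10⟩
    refine ⟨k1.1, ⟨fun x y z => k1.2 ![x, y, z], k2.2, fun e x => k3.2 ![e, x],
      fun x y => k4.2 ![x, y], fun v y z x => k5.2 ![v, y, z, x],
      fun v w a b a' b' => k6.2 ![v, w, a, b, a', b'], ?_, ?_, ?_, fun n => (k10 n).2⟩⟩
    · intro n m s t hs v y z a b hc
      exact (k7 n m s t).2 (Sum.elim (cf v y z a b) fun _ => 0) hs hc
    · intro n m s t hs C hC hC' hC'' v y z a b e he hc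
      exact (k8 n m s t C).2 (Sum.elim (cf v y z a b) fun _ => e) ⟨hs, hC, hC', hC''⟩ he hc
    · intro r C hC hC' u e he hu hb
      obtain ⟨n, m, g, g1, g2, g3⟩ := (k9 r C).2 (Sum.elim u fun _ => e) ⟨hC, hC'⟩ he hu hb
      refine ⟨n, m, _, _, _, _, _, _, _, g1, g2, fun i => ?_⟩
      rw [cf'_eta g]
      exact g3 i
  · rintro ⟨hW, k⟩
    refine ⟨⟨hW, fun f => k.assoc _ _ _⟩, ⟨hW, k.unit⟩, ⟨hW, fun f => k.expo _ _⟩,
      ⟨hW, fun f => k.cls _ _⟩, ⟨hW, fun f => k.cen _ _ _ _⟩, ⟨hW, fun f => k.wit _ _ _ _ _ _⟩,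
      fun n m s t => ⟨hW, fun f hs hc => ?_⟩, fun n m s t C => ⟨hW, fun f hs he hc => ?_⟩,
      fun r C => ⟨hW, fun f hC he hu hb => ?_⟩, fun n => ⟨hW, k.inf n⟩⟩
    · have h0 := k.ind n m s t hs _ _ _ _ _ hc
      rw [cf_eta fun i => f (Sum.inl i)] at h0
      exact h0
    · have h0 := k.rel n m s t hs.1 C hs.2.1 hs.2.2.1 hs.2.2.2 _ _ _ _ _ _ he hc
      rw [cf_eta fun i => f (Sum.inl i)] at h0
      exact h0
    · obtain ⟨n, m, v, y, z, v', w', a, b, g1, g2, g3⟩ := k.fin r C hC.1 hC.2 _ _ he hu hb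
      exact ⟨n, m, cf' v y z v' w' a b, g1, g2, g3⟩

end Pool.Agent.H650.FV
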